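import Pool.Agent.Lib.MP_ab8df0_nt.A.L3.Main

/-! The same in terms of a generator whose index has only bad primes. -/

namespace Pool.Agent.Lib.MP_ab8df0_nt.A.L3.G

open Pool.Agent.Lib.MP_ab8df0_nt.A

open NumberField IsDedekindDomain

variable {F : Type*} [Field F] [NumberField F] {α : 𝓞 F}

/-- Lower coefficients of the polynomial. -/
def fl : List ℤ := [1, 0, -6, 96, -273, 576, -692, 576, -273, 96, -6, 0]

instance : Fact (Irreducible (mq fl)) :=
  ⟨irr_of_other (fl := L3.fl) (l := [-6750752163, -7173947928, -22042616496, 22656414102, 67128870684, 9554570241, -31722863944, -35033290769, -9463785958, 6635846516, 3567522697, -315828442]) (d := 1762005375)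
    (l' := [100, -981, 4151, -10030, 16329, -17126, 12338, -5511, 1687, -101, -9, 17]) (d' := 36) Fact.out (by decide +kernel)⟩

/-- The uniformizer at two is `ul / ud`. -/
def ul : List ℤ := [100, -981, 4151, -10030, 16329, -17126, 12338, -5511, 1687, -101, -9, 17]

/-- Denominator of the uniformizer. -/
def ud : ℤ := 36

/-- The generator is `vl / vd` in terms of the uniformizer. -/
def vl : List ℤ := [-6750752163, -7173947928, -22042616496, 22656414102, 67128870684, 9554570241, -31722863944, -35033290769, -9463785958, 6635846516, 3567522697, -315828442]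

/-- Denominator of the generator. -/
def vd : ℤ := 1762005375

theorem unif (h : Gen α fl) : ∃ γ : 𝓞 F, ud * γ = ev α ul ∧ Gen γ L3.fl :=
  h.other (l' := vl) (d' := vd) (by decide +kernel)

/-- The generators. -/
def g : Fin 10 → List ℤ := L3.g0

theorem SU (h : Gen α fl) {ξ : F} (h0 : ξ ≠ 0)
    (hξ : ∀ v : HeightOneSpectrum (𝓞 F), ((6 : ℕ) : 𝓞 F) ∉ v.asIdeal →
      ∃ k : ℤ, v.valuation F ξ = WithZero.exp (2 * k)) :
    ∃ (e : Fin 10 → Bool) (u : F), ξ = (∏ i, if e i then ev (α : F) (g i) else 1) * u ^ 2 :=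
  L3.SU0 h h0 hξ

theorem re0 (h : Gen α fl) : ∃ φ : F →+* ℝ, ((-5835639413084263701478030167667 : ℤ) : ℝ) / ((10 ^ 30 : ℕ) : ℝ) < φ α ∧
    φ α < ((-5835639413084263701478030167666 : ℤ) : ℝ) / ((10 ^ 30 : ℕ) : ℝ) := h.real (by decide +kernel)

theorem re1 (h : Gen α fl) : ∃ φ : F →+* ℝ, ((-171360827702594122288590493958 : ℤ) : ℝ) / ((10 ^ 30 : ℕ) : ℝ) < φ α ∧
    φ α < ((-171360827702594122288590493957 : ℤ) : ℝ) / ((10 ^ 30 : ℕ) : ℝ) := h.real (by decide +kernel)

/-- The common denominator. -/
def den : ℤ := 144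

/-- Numerator of a tower element. -/
def th : List ℤ := [-72, -280, 7136, -19704, 41968, -51464, 43944, -21080, 7624, -480, 8, 80]

/-- Numerator of a tower element. -/
def rho : List ℤ := [630, -3243, 14964, -32787, 57396, -59298, 45432, -20130, 6726, -387, -12, 69]

/-- Numerator of a tower element. -/
def sig : List ℤ := [-371, 975, -4569, 9701, -21198, 26442, -24706, 11982, -4767, 295, -21, -51]

theorem tw0 {K : Type*} [Field K] [CharZero K] {a : K} (h : a ^ fl.length + ev a fl = 0) :
    (ev a th / den) ^ 3 = 12 := by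
  have := ex_zero_div h (D := den) (ls := [th, rho, sig])
    (e := (.add (.pow (.v 0) 3) (.neg (.c 12)))) (by decide +kernel)
  simp only [List.map, Ex.evR, Ex.evR_pow, nth0] at this
  push_cast at this
  linear_combination this

theorem tw1 {K : Type*} [Field K] [CharZero K] {a : K} (h : a ^ fl.length + ev a fl = 0) :
    ((ev a rho / den) ^ 2 * ((ev a th / den) - 2) ^ 3) = 4 := by
  have := ex_zero_div h (D := den) (ls := [th, rho, sig])
    (e := (.add (.mul (.pow (.v 1) 2) (.pow (.add (.v 0) (.neg (.c 2))) 3)) (.neg (.c 4)))) (by decide +kernel)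
  simp only [List.map, Ex.evR, Ex.evR_pow, nth0, nth1] at this
  push_cast at this
  linear_combination this

theorem tw2 {K : Type*} [Field K] [CharZero K] {a : K} (h : a ^ fl.length + ev a fl = 0) :
    (ev a sig / den) ^ 2 = (1 + (2 * (ev a rho / den))) := by
  have := ex_zero_div h (D := den) (ls := [th, rho, sig])
    (e := (.add (.pow (.v 2) 2) (.neg (.add (.c 1) (.mul (.c 2) (.v 1)))))) (by decide +kernel)
  simp only [List.map, Ex.evR, Ex.evR_pow, nth1, nth2] at this
  push_cast at this
  linear_combination this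

end Pool.Agent.Lib.MP_ab8df0_nt.A.L3.G
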